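import Pool.Agent.Helper97.TX.Reg1H
import Pool.Agent.Helper97.TX.Two
import Pool.Agent.Helper97.TX.CaseH
import Pool.Agent.Helper97.TX.Core

/-!
TX-F6 (MP_464c42_nt). `n + 2` integers with sum zero, the bound without `Y m`, `√(Y j Y l)` for distinct `m, j, l ≠ z`.
The assembly of `corePL`, `coreNS`, `reg1H`, `two`, `caseH` (statement of helper97).
(helper87)
-/

set_option autoImplicit false

open Pool.Agent.Helper87.Camp Pool.Agent.Helper10 Pool.Agent.Helper91.CPX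

namespace Pool.Agent.Helper87.TX

open Pool.Agent.Helper24.TU Pool.Agent.Helper24.TV Pool.Agent.Helper87.RP Pool.Agent.Helper97.TX
  Pool.Agent.Helper93.RS

private lemma ap_large (c : ℝ) (hc : 0 < c) (K : ℝ) :
    ∃ N1 : ℕ, 1 ≤ N1 ∧ ∀ N : ℕ, N1 ≤ N → K ≤ (N : ℝ) ^ c := by
  have h := (tendsto_rpow_atTop hc).comp tendsto_natCast_atTop_atTop
  obtain ⟨N1, hN1⟩ := Filter.eventually_atTop.1 (h.eventually_ge_atTop K)
  exact ⟨max N1 1, le_max_right _ _, fun N hN => hN1 N (le_trans (le_max_left _ _) hN)⟩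

private lemma ceil_facts (x : ℝ) (hx : 1 ≤ x) :
    x ≤ (⌈x⌉₊ : ℝ) ∧ (⌈x⌉₊ : ℝ) ≤ 2 * x ∧ 1 ≤ ⌈x⌉₊ := by
  refine ⟨Nat.le_ceil _, ?_, Nat.one_le_ceil_iff.2 (by linarith)⟩
  have := Nat.ceil_lt_add_one (show 0 ≤ x by linarith)
  linarith

private lemma triv (n N N1 : ℕ) (hN : N ≤ N1) (T : Finset (Fin (n + 2) → ℤ))
    (hT : ∀ a ∈ T, ∀ i, (a i).natAbs ≤ N) : (T.card : ℝ) ≤ (2 * (N1 : ℝ) + 1) ^ (n + 2) := by
  classical
  have hsub : T ⊆ Fintype.piFinset fun _ : Fin (n + 2) => Finset.Icc (-(N1 : ℤ)) N1 := by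
    intro a ha
    rw [Fintype.mem_piFinset]
    intro i
    have := hT a ha i
    rw [Finset.mem_Icc]
    omega
  have h1 := Finset.card_le_card hsub
  rw [Fintype.card_piFinset, Finset.prod_const, Finset.card_univ, Fintype.card_fin,
    Int.card_Icc] at h1
  have h2 : ((N1 : ℤ) + 1 - -(N1 : ℤ)).toNat = 2 * N1 + 1 := by omega
  rw [h2] at h1
  exact_mod_cast h1

private lemma split1 {α κ : Type} [Fintype κ] [Nonempty κ] (T : Finset α) (P : κ → α → Prop) (X : ℝ)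
    (hP : ∀ a ∈ T, ∃ k, P k a)
    (hb : ∀ k, ∀ U : Finset α, U ⊆ T → (∀ a ∈ U, P k a) → (U.card : ℝ) ≤ X) :
    (T.card : ℝ) ≤ X * Fintype.card κ := by
  classical
  choose! f hf using hP
  have h1 := card_le_real (T := T) (U := (Finset.univ : Finset κ)) (K := X) f
    (fun a _ => Finset.mem_univ _) (fun k _ => hb k _ (Finset.filter_subset _ _) (by
      intro a ha
      rw [Finset.mem_filter] at ha
      rw [← ha.2]
      exact hf a ha.1))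
  rwa [Finset.card_univ] at h1

private lemma three_ne {n : ℕ} (hn : 2 ≤ n) (z : Fin (n + 2)) :
    ∃ m j l : Fin (n + 2), m ≠ z ∧ j ≠ z ∧ l ≠ z ∧ m ≠ j ∧ m ≠ l ∧ j ≠ l := by
  have h1 : 2 < ((Finset.univ : Finset (Fin (n + 2))).erase z).card := by
    rw [Finset.card_erase_of_mem (Finset.mem_univ z), Finset.card_univ, Fintype.card_fin]
    omega
  obtain ⟨a, ha, b, hb, c, hc, h2, h3, h4⟩ := Finset.two_lt_card.1 h1
  exact ⟨a, b, c, (Finset.mem_erase.1 ha).1, (Finset.mem_erase.1 hb).1, (Finset.mem_erase.1 hc).1,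
    h2, h3, h4⟩

private lemma fourth {n : ℕ} (hn : 2 ≤ n) (a b c : Fin (n + 2)) :
    ∃ m : Fin (n + 2), m ≠ a ∧ m ≠ b ∧ m ≠ c := by
  by_contra hne
  push Not at hne
  have h1 : (Finset.univ : Finset (Fin (n + 2))) ⊆ {a, b, c} := by
    intro m _
    rw [Finset.mem_insert, Finset.mem_insert, Finset.mem_singleton]
    by_cases h2 : m = a
    · exact Or.inl h2
    · by_cases h3 : m = b
      · exact Or.inr (Or.inl h3)
      · exact Or.inr (Or.inr (hne m h2 h3))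
  have h2 := Finset.card_le_card h1
  have h3 := Finset.card_le_three (a := a) (b := b) (c := c)
  rw [Finset.card_univ, Fintype.card_fin] at h2
  omega

private lemma prodA {n : ℕ} (hn : 2 ≤ n) (Y : Fin (n + 2) → ℕ) (z t c : Fin (n + 2)) (Q : ℝ)
    (hQ : ∀ m j l : Fin (n + 2), m ≠ z → j ≠ z → l ≠ z → m ≠ j → m ≠ l → j ≠ l →
      (∏ h ∈ ((Finset.univ.erase m).erase j).erase l, (Y h : ℝ)) *
        Real.sqrt ((Y j : ℝ) * Y l) ≤ Q)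
    (htz : t ≠ z) (hcz : c ≠ z) (htc : t ≠ c) (ht : ∀ i, i ≠ z → Y i ≤ Y t) :
    (∏ h ∈ (Finset.univ.erase t).erase c, (Y h : ℝ)) ≤ Q := by
  obtain ⟨l, hlz, hlt, hlc⟩ := fourth hn z t c
  refine le_trans ?_ (hQ c t l hcz htz hlz htc.symm hlc.symm hlt.symm)
  have h1 : l ∈ (Finset.univ.erase c).erase t :=
    Finset.mem_erase.2 ⟨hlt, Finset.mem_erase.2 ⟨hlc, Finset.mem_univ _⟩⟩
  rw [Finset.erase_right_comm, ← Finset.mul_prod_erase _ _ h1, mul_comm]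
  refine mul_le_mul_of_nonneg_left ?_ (Finset.prod_nonneg fun i _ => Nat.cast_nonneg _)
  refine Real.le_sqrt_of_sq_le ?_
  have h2 : (Y l : ℝ) ≤ Y t := by exact_mod_cast ht l hlz
  rw [sq]
  exact mul_le_mul_of_nonneg_right h2 (Nat.cast_nonneg _)

private lemma prodTwo {n : ℕ} (Y : Fin (n + 2) → ℕ) (hY : ∀ i, 1 ≤ Y i) (z h h' m : Fin (n + 2))
    (Q : ℝ)
    (hQ : ∀ m j l : Fin (n + 2), m ≠ z → j ≠ z → l ≠ z → m ≠ j → m ≠ l → j ≠ l →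
      (∏ h ∈ ((Finset.univ.erase m).erase j).erase l, (Y h : ℝ)) *
        Real.sqrt ((Y j : ℝ) * Y l) ≤ Q)
    (hzh : z ≠ h) (hzh' : z ≠ h') (hhh' : h ≠ h') (hmz : m ≠ z) (hmh : m ≠ h) (hmh' : m ≠ h') :
    (∏ k ∈ (((Finset.univ.erase z).erase h).erase h').erase m, (Y k : ℝ)) *
      (Real.sqrt ((Y z : ℝ) * Y h) * Real.sqrt (Y h' : ℝ)) ≤ Q := by
  refine le_trans ?_ (hQ m h h' hmz hzh.symm hzh'.symm hmh hmh' hhh')
  have h1 : z ∈ ((Finset.univ.erase m).erase h).erase h' :=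
    Finset.mem_erase.2 ⟨hzh', Finset.mem_erase.2 ⟨hzh, Finset.mem_erase.2 ⟨hmz.symm,
      Finset.mem_univ _⟩⟩⟩
  have h2 : (((Finset.univ.erase z).erase h).erase h').erase m =
      (((Finset.univ.erase m).erase h).erase h').erase z := by
    ext i
    simp only [Finset.mem_erase, Finset.mem_univ]
    tauto
  obtain ⟨P, hP⟩ : ∃ P : ℝ, P = ∏ k ∈ (((Finset.univ.erase m).erase h).erase h').erase z,
    (Y k : ℝ) := ⟨_, rfl⟩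
  have hP0 : 0 ≤ P := by rw [hP]; exact Finset.prod_nonneg fun i _ => Nat.cast_nonneg _
  have e1 : ∏ k ∈ ((Finset.univ.erase m).erase h).erase h', (Y k : ℝ) = (Y z : ℝ) * P := by
    rw [hP]
    exact (Finset.mul_prod_erase _ (fun k => (Y k : ℝ)) h1).symm
  rw [h2, e1, ← hP]
  have hz : (1 : ℝ) ≤ Y z := by exact_mod_cast hY z
  have h3 : Real.sqrt (Y z : ℝ) ≤ Y z := by
    rw [Real.sqrt_le_left (by linarith)]
    nlinarith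
  rw [Real.sqrt_mul (Nat.cast_nonneg _), Real.sqrt_mul (Nat.cast_nonneg _)]
  have h4 : 0 ≤ P * (Real.sqrt (Y h : ℝ) * Real.sqrt (Y h' : ℝ)) := by positivity
  calc P * (Real.sqrt (Y z : ℝ) * Real.sqrt (Y h : ℝ) * Real.sqrt (Y h' : ℝ)) =
        Real.sqrt (Y z : ℝ) * (P * (Real.sqrt (Y h : ℝ) * Real.sqrt (Y h' : ℝ))) := by ring
    _ ≤ (Y z : ℝ) * (P * (Real.sqrt (Y h : ℝ) * Real.sqrt (Y h' : ℝ))) :=
        mul_le_mul_of_nonneg_right h3 h4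
    _ = _ := by ring

private lemma pow_dvd_of {d L : ℕ} (hsq : Squarefree d) (x : ℤ)
    (h : ∀ p ∈ d.primeFactors, (p : ℤ) ^ L ∣ x) : ((d ^ L : ℕ) : ℤ) ∣ x := by
  have h1 : ∏ p ∈ d.primeFactors, p = d := Nat.prod_primeFactors_of_squarefree hsq
  have h2 : ((d ^ L : ℕ) : ℤ) = ∏ p ∈ d.primeFactors, (p : ℤ) ^ L := by
    rw [Finset.prod_pow, ← Nat.cast_prod, h1, Nat.cast_pow]
  rw [h2]
  refine Finset.prod_dvd_of_coprime ?_ h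
  intro p hp q hq hpq
  have h3 : Nat.Coprime p q := (Nat.coprime_primes (Nat.prime_of_mem_primeFactors hp)
    (Nat.prime_of_mem_primeFactors hq)).2 hpq
  exact (Nat.isCoprime_iff_coprime.2 h3).pow

private lemma pairCase {n : ℕ} (L N d : ℕ) (hL : 1 ≤ L) (z t : Fin (n + 2))
    (U : Finset (Fin (n + 2))) (a : Fin (n + 2) → ℤ) (hat : a t ≠ 0) (hatN : (a t).natAbs ≤ N)
    (hU2 : 2 ≤ U.card) (hsq : Squarefree d) (hdvd : ((d ^ (2 * L) : ℕ) : ℤ) ∣ a t)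
    (hval : ∀ i, i ∉ U → ∀ p ∈ d.primeFactors, (p : ℤ) ^ L ∣ a i)
    (htwo : ∀ p ∈ d.primeFactors, ∃ i j, i ≠ j ∧ ¬ (p : ℤ) ∣ a i ∧ ¬ (p : ℤ) ∣ a j)
    (hsum : ∑ i, a i = 0)
    (hno : ¬ ∃ j l, j ∈ U ∧ l ∈ U ∧ j ≠ z ∧ l ≠ z ∧ j ≠ l) :
    ∃ h, h ∈ U ∧ h ≠ z ∧ d ^ L ≤ N ∧ ((d ^ L : ℕ) : ℤ) ∣ a z + a h ∧
      IsCoprime (a z) (d : ℤ) ∧ IsCoprime (a h) (d : ℤ) := by
  classical
  obtain ⟨i, hi, j, hj, hij⟩ := Finset.one_lt_card.1 (show 1 < U.card by omega)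
  obtain ⟨h, hhU, hhz, hzU⟩ : ∃ h, h ∈ U ∧ h ≠ z ∧ z ∈ U := by
    by_cases h1 : i = z
    · exact ⟨j, hj, by rw [← h1]; exact hij.symm, by rw [← h1]; exact hi⟩
    · by_cases h2 : j = z
      · exact ⟨i, hi, h1, by rw [← h2]; exact hj⟩
      · exact absurd ⟨i, j, hi, hj, h1, h2, hij⟩ hno
  have hout : ∀ k, k ≠ z → k ≠ h → k ∉ U := by
    intro k hk1 hk2 hkU
    exact hno ⟨k, h, hkU, hhU, hk1, hhz, hk2⟩
  have hin : ∀ p ∈ d.primeFactors, ∀ k, ¬ (p : ℤ) ∣ a k → k = z ∨ k = h := by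
    intro p hp k hk
    by_contra hne
    push Not at hne
    exact hk ((dvd_pow_self _ (by omega)).trans (hval k (hout k hne.1 hne.2) p hp))
  have hzh : ∀ p ∈ d.primeFactors, ¬ (p : ℤ) ∣ a z ∧ ¬ (p : ℤ) ∣ a h := by
    intro p hp
    obtain ⟨k, l, hkl, hk, hl⟩ := htwo p hp
    rcases hin p hp k hk with rfl | rfl
    · rcases hin p hp l hl with rfl | rfl
      · exact absurd rfl hkl
      · exact ⟨hk, hl⟩
    · rcases hin p hp l hl with rfl | rfl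
      · exact ⟨hl, hk⟩
      · exact absurd rfl hkl
  have hd0 : d ≠ 0 := hsq.ne_zero
  refine ⟨h, hhU, hhz, ?_, ?_, cop_of' _ _ hd0 fun p hp => (hzh p hp).1,
    cop_of' _ _ hd0 fun p hp => (hzh p hp).2⟩
  · have h1 : d ^ (2 * L) ≤ (a t).natAbs :=
      Nat.le_of_dvd (Int.natAbs_pos.2 hat) (Int.natCast_dvd.1 hdvd)
    exact ((Nat.pow_le_pow_right (by omega) (by omega)).trans h1).trans hatN
  · have h1 : a z + (a h + ∑ k ∈ (Finset.univ.erase z).erase h, a k) = 0 := by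
      rw [← hsum, ← Finset.add_sum_erase Finset.univ a (Finset.mem_univ z),
        ← Finset.add_sum_erase (Finset.univ.erase z) a
          (Finset.mem_erase.2 ⟨hhz, Finset.mem_univ h⟩)]
    have h2 : ((d ^ L : ℕ) : ℤ) ∣ ∑ k ∈ (Finset.univ.erase z).erase h, a k := by
      refine Finset.dvd_sum fun k hk => pow_dvd_of hsq _ (hval k (hout k ?_ ?_))
      · exact (Finset.mem_erase.1 (Finset.mem_erase.1 hk).2).1
      · exact (Finset.mem_erase.1 hk).1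
    have h3 : a z + a h = - ∑ k ∈ (Finset.univ.erase z).erase h, a k := by linarith
    rw [h3]
    exact h2.neg_right

theorem apH (n : ℕ) (hn : 2 ≤ n) (ε : ℝ) (hε : 0 < ε) :
    ∃ lam0 : ℝ, 0 < lam0 ∧ ∀ lam : ℝ, 0 < lam → lam ≤ lam0 → ∀ (S : Finset ℕ) (G : ℕ),
      ∃ C : ℝ, 1 ≤ C ∧ ∀ (N : ℕ) (Y : Fin (n + 2) → ℕ), 1 ≤ N →
      (∀ i, 1 ≤ Y i ∧ (Y i : ℝ) ≤ (N : ℝ) ^ lam) → ∀ (z : Fin (n + 2)) (Q : ℝ),
      (∀ m j l : Fin (n + 2), m ≠ z → j ≠ z → l ≠ z → m ≠ j → m ≠ l → j ≠ l →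
        (∏ h ∈ ((Finset.univ.erase m).erase j).erase l, (Y h : ℝ)) *
          Real.sqrt ((Y j : ℝ) * Y l) ≤ Q) →
      ∀ T : Finset (Fin (n + 2) → ℤ), (∀ a ∈ T, ValH S G N Y a) →
      (T.card : ℝ) ≤ C * (Q * (N : ℝ) ^ (ε * lam)) := by
  classical
  have hn1 : 1 ≤ n := by omega
  obtain ⟨P, hP⟩ : ∃ P : ℕ, P = Fintype.card (Finset (Fin (n + 2))) := ⟨_, rfl⟩
  have hP1 : 1 ≤ P := by rw [hP]; exact Fintype.card_pos
  -- the parameters of the two levels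
  obtain ⟨κB, hB0, hBε, hB1⟩ : ∃ κ : ℝ, 0 < κ ∧ κ ≤ ε / 16 ∧ κ ≤ 1 / 16 :=
    ⟨min (ε / 16) (1 / 16), lt_min (by linarith) (by norm_num), min_le_left _ _, min_le_right _ _⟩
  obtain ⟨κA, hκA⟩ : ∃ κ : ℝ, κ = κB / 3 := ⟨_, rfl⟩
  have hA0 : 0 < κA := by rw [hκA]; positivity
  have hAB : κA * 3 = κB := by rw [hκA]; ring
  obtain ⟨κWA, hκWA⟩ : ∃ κ : ℝ, κ = κA / 2 := ⟨_, rfl⟩
  have hWA0 : 0 < κWA := by rw [hκWA]; positivity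
  obtain ⟨MA1, hMA1, hMA1κ⟩ : ∃ M1 : ℕ, 1 ≤ M1 ∧ 5 ≤ κA * M1 := by
    refine ⟨⌈5 / κA⌉₊, Nat.one_le_ceil_iff.2 (by positivity), ?_⟩
    have h1 := Nat.le_ceil (5 / κA)
    rw [div_le_iff₀ hA0] at h1
    linarith
  obtain ⟨LA, hLA⟩ : ∃ LA : ℕ, LA = P * MA1 := ⟨_, rfl⟩
  have hLA1 : 1 ≤ LA := by rw [hLA]; exact Nat.mul_pos hP1 hMA1
  obtain ⟨M3, κ2, lamA, hM3, hκ20, hκ2W, hlamA, hPL⟩ := corePL n hn1 ε hε κA κWA hA0 (by linarith)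
    (by linarith) hWA0 (by rw [hκWA]) (2 * LA) (by omega)
  obtain ⟨κWB, hWB0, hWB2, hWBB⟩ : ∃ κ : ℝ, 0 < κ ∧ κ ≤ κ2 ∧ κ ≤ κB / 2 :=
    ⟨min κ2 (κB / 2), lt_min hκ20 (by linarith), min_le_left _ _, min_le_right _ _⟩
  obtain ⟨MB1, hMB1, hMB1κ, hMB3⟩ : ∃ M1 : ℕ, 1 ≤ M1 ∧ 5 ≤ κB * M1 ∧ M3 ≤ M1 := by
    refine ⟨max ⌈5 / κB⌉₊ M3, (Nat.one_le_ceil_iff.2 (by positivity)).trans (le_max_left _ _), ?_,
      le_max_right _ _⟩
    have h1 := Nat.le_ceil (5 / κB)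
    rw [div_le_iff₀ hB0] at h1
    have h2 : ((⌈5 / κB⌉₊ : ℕ) : ℝ) ≤ ((max ⌈5 / κB⌉₊ M3 : ℕ) : ℝ) := by
      exact_mod_cast le_max_left _ _
    nlinarith
  obtain ⟨LB, hLB⟩ : ∃ LB : ℕ, LB = P * MB1 := ⟨_, rfl⟩
  have hLB1 : 1 ≤ LB := by rw [hLB]; exact Nat.mul_pos hP1 hMB1
  have hMBL : M3 ≤ 2 * LB := by
    have h1 : MB1 ≤ LB := by rw [hLB]; exact Nat.le_mul_of_pos_left _ hP1
    omega
  obtain ⟨lamB, hlamB, hNS⟩ := coreNS n hn1 ε hε κB κWB hB0 hBε hB1 hWB0 hWBB (2 * LB) (by omega)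
  refine ⟨min lamA lamB, lt_min hlamA hlamB, fun lam hlam hle S G => ?_⟩
  obtain ⟨E, hE, hEl⟩ : ∃ E : ℕ, 1 ≤ E ∧ 3 / ((E : ℝ) + 1) ≤ ε / 4 * lam := by
    refine ⟨⌈3 / (ε / 4 * lam)⌉₊, Nat.one_le_ceil_iff.2 (by positivity), ?_⟩
    have h1 := Nat.le_ceil (3 / (ε / 4 * lam))
    rw [div_le_iff₀ (by positivity)] at h1
    rw [div_le_iff₀ (by positivity)]
    have h2 := mul_pos (show (0 : ℝ) < ε / 4 by linarith) hlam
    rw [mul_add, mul_one, mul_comm (ε / 4 * lam)]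
    linarith
  have hE2 : 2 / ((E : ℝ) + 1) ≤ 3 / ((E : ℝ) + 1) := by gcongr; norm_num
  obtain ⟨CP, NP, hCP, hPL⟩ := hPL lam hlam (hle.trans (min_le_left _ _)) S
  obtain ⟨CN, NN, hCN, hNS⟩ := hNS lam hlam (hle.trans (min_le_right _ _)) S G
  obtain ⟨C1, hC1, hr1⟩ := reg1H n E hn1 hE S (ε / 4 * lam) (by positivity)
  obtain ⟨C2, hC2, hr2⟩ := two n E hn hE S (ε / 4 * lam) (by positivity)
  obtain ⟨Na, hNa1, hNa⟩ := ap_large lam hlam (2 ^ (4 * E))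
  obtain ⟨Nb, hNb1, hNb⟩ := ap_large (κA * lam) (by positivity) 4
  obtain ⟨N1, hN1P, hN1N, hN1a, hN1b⟩ : ∃ N1 : ℕ, NP ≤ N1 ∧ NN ≤ N1 ∧ Na ≤ N1 ∧ Nb ≤ N1 :=
    ⟨NP + NN + Na + Nb, by omega, by omega, by omega, by omega⟩
  obtain ⟨K, hK⟩ : ∃ K : ℝ, K = CP + CN + 4 * C1 + 16 * C2 := ⟨_, rfl⟩
  have hK1 : 1 ≤ K := by rw [hK]; linarith
  obtain ⟨F, hF⟩ : ∃ F : ℝ, F = (Fintype.card (Fin (n + 2) ⊕ ((Fin (n + 2) × Fin (n + 2)) ⊕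
    (Fin (n + 2) ⊕ ((Fin (n + 2) × (Fin (n + 2) × Fin (n + 2))) ⊕
      (Fin (n + 2) × Fin (n + 2)))))) : ℝ) := ⟨_, rfl⟩
  have hF0 : 0 ≤ F := by rw [hF]; exact Nat.cast_nonneg _
  have htriv0 : (1 : ℝ) ≤ (2 * (N1 : ℝ) + 1) ^ (n + 2) :=
    one_le_pow₀ (by have : (0 : ℝ) ≤ N1 := Nat.cast_nonneg N1; linarith)
  have hKF : 0 ≤ K * F := by positivity
  refine ⟨(2 * (N1 : ℝ) + 1) ^ (n + 2) + K * F, by linarith, ?_⟩
  intro N Y hN hY z Q hQ T hT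
  have hNR : (1 : ℝ) ≤ (N : ℝ) := by exact_mod_cast hN
  have hN0 : (0 : ℝ) < (N : ℝ) := by linarith
  have hY1 : ∀ i, 1 ≤ Y i := fun i => (hY i).1
  have hYR : ∀ i, (1 : ℝ) ≤ Y i := fun i => by exact_mod_cast hY1 i
  have hpow1 : (1 : ℝ) ≤ (N : ℝ) ^ (ε * lam) := Real.one_le_rpow hNR (by positivity)
  have hQ1 : 1 ≤ Q := by
    obtain ⟨m, j, l, h1, h2, h3, h4, h5, h6⟩ := three_ne hn z
    refine le_trans ?_ (hQ m j l h1 h2 h3 h4 h5 h6)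
    have h7 : (1 : ℝ) ≤ ∏ h ∈ ((Finset.univ.erase m).erase j).erase l, (Y h : ℝ) := by
      have h3 : 1 ≤ ∏ h ∈ ((Finset.univ.erase m).erase j).erase l, Y h :=
        Finset.one_le_prod' fun h _ => hY1 h
      exact_mod_cast h3
    have h8 : (1 : ℝ) ≤ Real.sqrt ((Y j : ℝ) * Y l) := by
      rw [Real.one_le_sqrt]
      exact one_le_mul_of_one_le_of_one_le (hYR _) (hYR _)
    exact one_le_mul_of_one_le_of_one_le h7 h8
  obtain ⟨B, hB⟩ : ∃ B : ℝ, B = Q * (N : ℝ) ^ (ε * lam) := ⟨_, rfl⟩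
  have hB1' : 1 ≤ B := by rw [hB]; exact one_le_mul_of_one_le_of_one_le hQ1 hpow1
  rw [← hB]
  rcases lt_or_ge N N1 with hNN1 | hNN1
  · have h1 := triv n N N1 hNN1.le T (fun a ha i => (mem_Rset.1 ((hT a ha).mem i)).2.1)
    calc (T.card : ℝ) ≤ ((2 * (N1 : ℝ) + 1) ^ (n + 2) + K * F) * 1 := by linarith
      _ ≤ _ := mul_le_mul_of_nonneg_left hB1' (by linarith)
  -- the sizes
  have hNa' := hNa N (by omega)
  have hNb' := hNb N (by omega)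
  obtain ⟨y0, hy0⟩ : ∃ y0 : ℝ, y0 = (N : ℝ) ^ lam := ⟨_, rfl⟩
  have hy01 : 1 ≤ y0 := by rw [hy0]; exact Real.one_le_rpow hNR hlam.le
  obtain ⟨dA, hdA⟩ : ∃ d : ℝ, d = (N : ℝ) ^ (κA * lam) := ⟨_, rfl⟩
  have hdA1 : 1 ≤ dA := by rw [hdA]; exact Real.one_le_rpow hNR (by positivity)
  obtain ⟨DA, hDA⟩ : ∃ D : ℕ, D = ⌈dA⌉₊ := ⟨_, rfl⟩
  obtain ⟨hDAl, hDAu, hDA1⟩ := ceil_facts dA hdA1
  rw [← hDA] at hDAl hDAu hDA1
  obtain ⟨dB, hdB⟩ : ∃ d : ℝ, d = (N : ℝ) ^ (κB * lam) := ⟨_, rfl⟩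
  have hdB1 : 1 ≤ dB := by rw [hdB]; exact Real.one_le_rpow hNR (by positivity)
  obtain ⟨DB, hDB⟩ : ∃ D : ℕ, D = ⌈dB⌉₊ := ⟨_, rfl⟩
  obtain ⟨hDBl, hDBu, hDB1⟩ := ceil_facts dB hdB1
  rw [← hDB] at hDBl hDBu hDB1
  obtain ⟨wA, hwA⟩ : ∃ w : ℝ, w = (N : ℝ) ^ (κWA * lam) := ⟨_, rfl⟩
  have hwA1 : 1 ≤ wA := by rw [hwA]; exact Real.one_le_rpow hNR (by positivity)
  obtain ⟨WA, hWA⟩ : ∃ W : ℕ, W = ⌈wA⌉₊ := ⟨_, rfl⟩
  obtain ⟨hWAl, hWAu, hWA1⟩ := ceil_facts wA hwA1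
  rw [← hWA] at hWAl hWAu hWA1
  obtain ⟨wB, hwB⟩ : ∃ w : ℝ, w = (N : ℝ) ^ (κWB * lam) := ⟨_, rfl⟩
  have hwB1 : 1 ≤ wB := by rw [hwB]; exact Real.one_le_rpow hNR (by positivity)
  obtain ⟨WB, hWB⟩ : ∃ W : ℕ, W = ⌈wB⌉₊ := ⟨_, rfl⟩
  obtain ⟨hWBl, hWBu, hWB1⟩ := ceil_facts wB hwB1
  rw [← hWB] at hWBl hWBu hWB1
  obtain ⟨W2, hW2⟩ : ∃ W : ℕ, W = ⌈(N : ℝ) ^ (κ2 * lam)⌉₊ := ⟨_, rfl⟩
  have hWB2' : WB ≤ W2 := by
    rw [hWB, hW2]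
    apply Nat.ceil_mono
    rw [hwB]
    apply Real.rpow_le_rpow_of_exponent_le hNR
    exact mul_le_mul_of_nonneg_right hWB2 hlam.le
  have hPLN := hPL N (by omega) hN Y hY
  obtain ⟨Lm, hLm1, hsize, hNSN⟩ := hNS N (by omega) hN
  have hNSN' := hNSN Y hY
  rw [← hdA, ← hDA, ← hwA, ← hWA, ← hW2] at hPLN
  rw [← hdB, ← hDB, ← hwB, ← hWB] at hNSN'
  have hDAB : DA * DA ≤ DB := by
    have h1 : (DA : ℝ) * DA ≤ DB := by
      calc (DA : ℝ) * DA ≤ (2 * dA) * (2 * dA) := by gcongr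
        _ = 4 * dA ^ 2 := by ring
        _ ≤ dA * dA ^ 2 := by
            apply mul_le_mul_of_nonneg_right _ (by positivity)
            rw [hdA]
            exact hNb'
        _ = dB := by
            rw [hdA, hdB, ← hAB, mul_right_comm, Real.rpow_mul hN0.le (κA * lam) 3]
            have : ((N : ℝ) ^ (κA * lam)) ^ (3 : ℝ) = ((N : ℝ) ^ (κA * lam)) ^ 3 := by
              exact_mod_cast Real.rpow_natCast ((N : ℝ) ^ (κA * lam)) 3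
            rw [this]
            ring
        _ ≤ DB := hDBl
    exact_mod_cast h1
  have hbigG : ∀ (κ : ℝ) (D M1 : ℕ), 5 ≤ κ * M1 → (N : ℝ) ^ (κ * lam) ≤ D →
      ∀ i, (2 ^ E * Y i) ^ 4 ≤ D ^ M1 := by
    intro κ D M1 hκ hD i
    have h1 : ((2 ^ E * (Y i : ℝ)) ^ 4) ≤ (D : ℝ) ^ M1 := by
      have hYi := (hY i).2
      rw [← hy0] at hYi hNa'
      have h2 : y0 ^ 5 ≤ ((N : ℝ) ^ (κ * lam)) ^ M1 := by
        have e1 : y0 ^ 5 = (N : ℝ) ^ (lam * 5) := by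
          rw [hy0, Real.rpow_mul hN0.le]
          exact (Real.rpow_natCast _ 5).symm
        have e2 : ((N : ℝ) ^ (κ * lam)) ^ M1 = (N : ℝ) ^ (κ * lam * (M1 : ℝ)) := by
          rw [Real.rpow_mul hN0.le (κ * lam) (M1 : ℝ), Real.rpow_natCast]
        rw [e1, e2]
        apply Real.rpow_le_rpow_of_exponent_le hNR
        linarith [mul_le_mul_of_nonneg_right hκ hlam.le]
      calc ((2 ^ E * (Y i : ℝ)) ^ 4) ≤ (2 ^ E * y0) ^ 4 := by gcongr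
        _ = 2 ^ (4 * E) * y0 ^ 4 := by rw [mul_pow, ← pow_mul, mul_comm E 4]
        _ ≤ y0 * y0 ^ 4 := mul_le_mul_of_nonneg_right hNa' (by positivity)
        _ = y0 ^ 5 := by ring
        _ ≤ ((N : ℝ) ^ (κ * lam)) ^ M1 := h2
        _ ≤ (D : ℝ) ^ M1 := pow_le_pow_left₀ (by positivity) hD _
    exact_mod_cast h1
  have hbigA := hbigG κA DA MA1 hMA1κ (by rw [← hdA]; exact hDAl)
  have hbigB := hbigG κB DB MB1 hMB1κ (by rw [← hdB]; exact hDBl)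
  -- the largest term besides `z`
  obtain ⟨t, htz, htmax⟩ : ∃ t : Fin (n + 2), t ≠ z ∧ ∀ i, i ≠ z → Y i ≤ Y t := by
    obtain ⟨m, -, -, hm, -⟩ := three_ne hn z
    obtain ⟨t, ht, hmax⟩ := Finset.exists_max_image (Finset.univ.erase z) Y
      ⟨m, Finset.mem_erase.2 ⟨hm, Finset.mem_univ _⟩⟩
    exact ⟨t, (Finset.mem_erase.1 ht).1, fun i hi => hmax i (Finset.mem_erase.2 ⟨hi,
      Finset.mem_univ _⟩)⟩
  -- the bounds of the factors `V`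
  have hVB : ((DB * WB : ℕ) : ℝ) ≤ 4 * ((N : ℝ) ^ (κB * lam) * (N : ℝ) ^ (κWB * lam)) := by
    push_cast
    calc (DB : ℝ) * WB ≤ (2 * dB) * (2 * wB) := by gcongr
      _ = _ := by rw [hdB, hwB]; ring
  have hVA : ((DA * WA : ℕ) : ℝ) ≤ 4 * ((N : ℝ) ^ (κA * lam) * (N : ℝ) ^ (κWA * lam)) := by
    push_cast
    calc (DA : ℝ) * WA ≤ (2 * dA) * (2 * wA) := by gcongr
      _ = _ := by rw [hdA, hwA]; ring
  have hl1 := mul_le_mul_of_nonneg_right hBε hlam.le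
  have hl2 := mul_le_mul_of_nonneg_right hWBB hlam.le
  have hl3 := mul_pos hε hlam
  have hl4 : κA * lam * 3 = κB * lam := by rw [← hAB]; ring
  have hl5 : κWA * lam * 2 = κA * lam := by rw [hκWA]; ring
  have hl6 : 0 < κA * lam := by positivity
  have hx1 : (N : ℝ) ^ (κB * lam) * (N : ℝ) ^ (κWB * lam) *
      (N : ℝ) ^ (2 / ((E : ℝ) + 1) + ε / 4 * lam) ≤ (N : ℝ) ^ (ε * lam) := by
    rw [← Real.rpow_add hN0, ← Real.rpow_add hN0]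
    apply Real.rpow_le_rpow_of_exponent_le hNR
    linarith
  have hx2 : (N : ℝ) ^ (κA * lam) * (N : ℝ) ^ (κWA * lam) *
      (N : ℝ) ^ (2 / ((E : ℝ) + 1) + ε / 4 * lam) ≤ (N : ℝ) ^ (ε * lam) := by
    rw [← Real.rpow_add hN0, ← Real.rpow_add hN0]
    apply Real.rpow_le_rpow_of_exponent_le hNR
    linarith
  have hx3 : ((N : ℝ) ^ (κB * lam) * (N : ℝ) ^ (κWB * lam)) *
      ((N : ℝ) ^ (κA * lam) * (N : ℝ) ^ (κWA * lam)) *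
      (N : ℝ) ^ (3 / ((E : ℝ) + 1) + ε / 4 * lam) ≤ (N : ℝ) ^ (ε * lam) := by
    rw [← Real.rpow_add hN0, ← Real.rpow_add hN0, ← Real.rpow_add hN0, ← Real.rpow_add hN0]
    apply Real.rpow_le_rpow_of_exponent_le hNR
    linarith
  have hcop : ∀ (d : ℕ) (x : ℤ), 1 ≤ d → (∀ p ∈ d.primeFactors, ¬ (p : ℤ) ∣ x) →
      IsCoprime x (d : ℤ) := fun d x hd h => cop_of' x d (by omega) h
  -- the statement of `reg1H` with the final bound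
  have hR1 : ∀ (V L : ℕ), (V : ℝ) * (N : ℝ) ^ (2 / ((E : ℝ) + 1) + ε / 4 * lam) ≤
        4 * (N : ℝ) ^ (ε * lam) →
      ∀ t j l : Fin (n + 2), t ≠ z → j ≠ z → l ≠ z → t ≠ j → t ≠ l → j ≠ l →
      ∀ U : Finset (Fin (n + 2) → ℤ), (∀ a ∈ U, (∀ i, a i ∈ Rset S (Y i) N) ∧ ∑ i, a i = 0 ∧
        ∃ d : ℕ, 1 ≤ d ∧ d ≤ V ∧ ((d ^ (2 * L) : ℕ) : ℤ) ∣ a t ∧
          (∀ p ∈ d.primeFactors, ¬ (p : ℤ) ^ L ∣ a j) ∧
          (∀ p ∈ d.primeFactors, ¬ (p : ℤ) ^ L ∣ a l) ∧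
          (2 ^ E * Y j) ^ 4 ≤ d ^ L ∧ (2 ^ E * Y l) ^ 4 ≤ d ^ L) →
      (U.card : ℝ) ≤ K * B := by
    intro V L hV t j l h1 h2 h3 h4 h5 h6 U hU
    have h7 := hr1 N Y hN hY1 L V t j l h4 h5 h6 U hU
    have h8 := hQ t j l h1 h2 h3 h4 h5 h6
    obtain ⟨R, hR⟩ : ∃ R : ℝ, R = (∏ h ∈ ((Finset.univ.erase t).erase j).erase l, (Y h : ℝ)) *
      Real.sqrt ((Y j : ℝ) * Y l) := ⟨_, rfl⟩
    have hR0 : 0 ≤ R := by rw [hR]; positivity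
    rw [← hR] at h7 h8
    calc (U.card : ℝ) ≤ _ := h7
      _ = C1 * (R * ((V : ℝ) * (N : ℝ) ^ (2 / ((E : ℝ) + 1) + ε / 4 * lam))) := by ring
      _ ≤ C1 * (Q * (4 * (N : ℝ) ^ (ε * lam))) := by gcongr
      _ = 4 * C1 * B := by rw [hB]; ring
      _ ≤ K * B := mul_le_mul_of_nonneg_right (by rw [hK]; linarith) (by linarith)
  have hVB1 : ((DB * WB : ℕ) : ℝ) * (N : ℝ) ^ (2 / ((E : ℝ) + 1) + ε / 4 * lam) ≤
      4 * (N : ℝ) ^ (ε * lam) := by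
    calc ((DB * WB : ℕ) : ℝ) * (N : ℝ) ^ (2 / ((E : ℝ) + 1) + ε / 4 * lam)
        ≤ 4 * ((N : ℝ) ^ (κB * lam) * (N : ℝ) ^ (κWB * lam)) *
          (N : ℝ) ^ (2 / ((E : ℝ) + 1) + ε / 4 * lam) :=
          mul_le_mul_of_nonneg_right hVB (by positivity)
      _ = 4 * ((N : ℝ) ^ (κB * lam) * (N : ℝ) ^ (κWB * lam) *
          (N : ℝ) ^ (2 / ((E : ℝ) + 1) + ε / 4 * lam)) := by ring
      _ ≤ _ := mul_le_mul_of_nonneg_left hx1 (by norm_num)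
  have hVA1 : ((DA * WA : ℕ) : ℝ) * (N : ℝ) ^ (2 / ((E : ℝ) + 1) + ε / 4 * lam) ≤
      4 * (N : ℝ) ^ (ε * lam) := by
    calc ((DA * WA : ℕ) : ℝ) * (N : ℝ) ^ (2 / ((E : ℝ) + 1) + ε / 4 * lam)
        ≤ 4 * ((N : ℝ) ^ (κA * lam) * (N : ℝ) ^ (κWA * lam)) *
          (N : ℝ) ^ (2 / ((E : ℝ) + 1) + ε / 4 * lam) :=
          mul_le_mul_of_nonneg_right hVA (by positivity)
      _ = 4 * ((N : ℝ) ^ (κA * lam) * (N : ℝ) ^ (κWA * lam) *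
          (N : ℝ) ^ (2 / ((E : ℝ) + 1) + ε / 4 * lam)) := by ring
      _ ≤ _ := mul_le_mul_of_nonneg_left hx2 (by norm_num)
  -- the five kinds of vectors
  let P1 : Fin (n + 2) → (Fin (n + 2) → ℤ) → Prop := fun c a => c ≠ z ∧ t ≠ c ∧
    radM S (2 * LB) WB (a t) ≤ DB ∧ NoSmallRatio (a t) (a t + a c) Lm
  let P2 : Fin (n + 2) × Fin (n + 2) → (Fin (n + 2) → ℤ) → Prop := fun x a =>
    x.1 ≠ z ∧ x.2 ≠ z ∧ t ≠ x.1 ∧ t ≠ x.2 ∧ x.1 ≠ x.2 ∧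
    ∃ d : ℕ, 1 ≤ d ∧ d ≤ DB * WB ∧ ((d ^ (2 * LB) : ℕ) : ℤ) ∣ a t ∧
      (∀ p ∈ d.primeFactors, ¬ (p : ℤ) ^ LB ∣ a x.1) ∧
      (∀ p ∈ d.primeFactors, ¬ (p : ℤ) ^ LB ∣ a x.2) ∧ DB ^ MB1 ≤ d ^ LB
  let P3 : Fin (n + 2) → (Fin (n + 2) → ℤ) → Prop := fun h a => h ≠ z ∧ h ≠ t ∧
    radM S (2 * LA) WA (a h) ≤ DA ∧ DB < radM S (2 * LB) WB (a t)
  let P4 : Fin (n + 2) × (Fin (n + 2) × Fin (n + 2)) → (Fin (n + 2) → ℤ) → Prop := fun x a =>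
    x.1 ≠ z ∧ x.2.1 ≠ z ∧ x.2.2 ≠ z ∧ x.1 ≠ x.2.1 ∧ x.1 ≠ x.2.2 ∧ x.2.1 ≠ x.2.2 ∧
    ∃ d : ℕ, 1 ≤ d ∧ d ≤ DA * WA ∧ ((d ^ (2 * LA) : ℕ) : ℤ) ∣ a x.1 ∧
      (∀ p ∈ d.primeFactors, ¬ (p : ℤ) ^ LA ∣ a x.2.1) ∧
      (∀ p ∈ d.primeFactors, ¬ (p : ℤ) ^ LA ∣ a x.2.2) ∧ DA ^ MA1 ≤ d ^ LA
  let P5 : Fin (n + 2) × Fin (n + 2) → (Fin (n + 2) → ℤ) → Prop := fun x a =>
    z ≠ x.1 ∧ z ≠ x.2 ∧ x.1 ≠ x.2 ∧
    (∃ d : ℕ, 1 ≤ d ∧ d ≤ DB * WB ∧ d ^ LB ≤ N ∧ ((d ^ LB : ℕ) : ℤ) ∣ a z + a x.1 ∧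
      IsCoprime (a z) (d : ℤ) ∧ IsCoprime (a x.1) (d : ℤ) ∧ DB ^ MB1 ≤ d ^ LB) ∧
    (∃ d : ℕ, 1 ≤ d ∧ d ≤ DA * WA ∧ d ^ LA ≤ N ∧ ((d ^ LA : ℕ) : ℤ) ∣ a z + a x.2 ∧
      IsCoprime (a x.2) (d : ℤ) ∧ DA ^ MA1 ≤ d ^ LA)
  have hmain : (T.card : ℝ) ≤ K * B * F := by
    rw [hF]
    refine split1 T (Sum.elim P1 (Sum.elim P2 (Sum.elim P3 (Sum.elim P4 P5)))) (K * B) ?_ ?_
    · intro a ha
      have hv := hT a ha
      have hneU : ∀ (V : Finset (Fin (n + 2))) (x y : Fin (n + 2)), x ∉ V → y ∈ V → x ≠ y := by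
        intro V x y hx hy e
        rw [e] at hx
        exact hx hy
      have hne : ∀ i, a i ≠ 0 := fun i => (mem_Rset.1 (hv.mem i)).1
      have hle : ∀ i, (a i).natAbs ≤ N := fun i => (mem_Rset.1 (hv.mem i)).2.1
      by_cases c1 : radM S (2 * LB) WB (a t) ≤ DB
      · obtain ⟨b, b', g1, g2, g3, g4, g5⟩ := pickT hn1 a hne hv.sum (G : ℤ) Lm (N : ℤ)
          (Int.natCast_nonneg G) hLm1 hv.gcd hv.big hsize t
        by_cases c2 : b = z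
        · exact ⟨Sum.inl b', by rw [← c2]; exact g3.symm, g2, c1, g5⟩
        · exact ⟨Sum.inl b, c2, g1, c1, g4⟩
      · rw [not_le] at c1
        obtain ⟨U, htU, hU2, d, hsq, hd1, hdV, hdvd, hval, hval', htwo, hpow⟩ :=
          caseH S MB1 WB DB P LB hP hMB1 hLB a t hWB1 hDB1 hv.few c1
        by_cases c2 : ∃ j l, j ∈ U ∧ l ∈ U ∧ j ≠ z ∧ l ≠ z ∧ j ≠ l
        · obtain ⟨j, l, hj, hl, hjz, hlz, hjl⟩ := c2
          exact ⟨Sum.inr (Sum.inl (j, l)), hjz, hlz, fun h => htU (h ▸ hj), fun h => htU (h ▸ hl),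
            hjl, d, hd1, hdV, hdvd, hval j hj, hval l hl, hpow⟩
        obtain ⟨h, hhU, hhz, hdN, hdzh, hcz, hch⟩ := pairCase LB N d hLB1 z t U a (hne t) (hle t)
          hU2 hsq hdvd hval' htwo hv.sum c2
        by_cases c3 : radM S (2 * LA) WA (a h) ≤ DA
        · exact ⟨Sum.inr (Sum.inr (Sum.inl h)), hhz, fun e => htU (e ▸ hhU), c3, c1⟩
        rw [not_le] at c3
        obtain ⟨U', htU', hU2', d', hsq', hd1', hdV', hdvd', hval1, hval1', htwo', hpow'⟩ :=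
          caseH S MA1 WA DA P LA hP hMA1 hLA a h hWA1 hDA1 hv.few c3
        by_cases c4 : ∃ j l, j ∈ U' ∧ l ∈ U' ∧ j ≠ z ∧ l ≠ z ∧ j ≠ l
        · obtain ⟨j, l, hj, hl, hjz, hlz, hjl⟩ := c4
          exact ⟨Sum.inr (Sum.inr (Sum.inr (Sum.inl (h, j, l)))), hhz, hjz, hlz,
            hneU U' h j htU' hj, hneU U' h l htU' hl, hjl, d', hd1', hdV', hdvd', hval1 j hj, hval1 l hl, hpow'⟩
        obtain ⟨h', hhU', hhz', hdN', hdzh', -, hch'⟩ := pairCase LA N d' hLA1 z h U' a (hne h)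
          (hle h) hU2' hsq' hdvd' hval1' htwo' hv.sum c4
        exact ⟨Sum.inr (Sum.inr (Sum.inr (Sum.inr (h, h')))), hhz.symm, hhz'.symm,
          hneU U' h h' htU' hhU', ⟨d, hd1, hdV, hdN, hdzh, hcz, hch, hpow⟩,
          ⟨d', hd1', hdV', hdN', hdzh', hch', hpow'⟩⟩
    · intro k U hUT hU
      rcases U.eq_empty_or_nonempty with h0 | ⟨a1, ha1⟩
      · rw [h0, Finset.card_empty, Nat.cast_zero]
        positivity
      have hms : ∀ a ∈ U, (∀ i, a i ∈ Rset S (Y i) N) ∧ ∑ i, a i = 0 := fun a ha =>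
        ⟨(hT a (hUT ha)).mem, (hT a (hUT ha)).sum⟩
      have hQB : ∀ (C R : ℝ), 0 ≤ C → C ≤ K → R ≤ Q → C * (R * (N : ℝ) ^ (ε * lam)) ≤ K * B := by
        intro C R hC0 hCK hR
        rw [hB]
        have e1 : 0 ≤ Q * (N : ℝ) ^ (ε * lam) := by positivity
        calc C * (R * (N : ℝ) ^ (ε * lam)) ≤ C * (Q * (N : ℝ) ^ (ε * lam)) := by gcongr
          _ ≤ _ := mul_le_mul_of_nonneg_right hCK e1
      rcases k with c | x | h | x | x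
      · obtain ⟨f1, f2, -, -⟩ := hU a1 ha1
        have h1 := hNSN' t c f2 U (fun a ha => ⟨(hms a ha).1, (hms a ha).2, (hU a ha).2.2.1,
          (hU a ha).2.2.2⟩)
        exact h1.trans (hQB CN _ (by linarith) (by rw [hK]; linarith)
          (prodA hn Y z t c Q hQ htz f1 f2 htmax))
      · obtain ⟨f1, f2, f3, f4, f5, -⟩ := hU a1 ha1
        refine hR1 (DB * WB) LB hVB1 t x.1 x.2 htz f1 f2 f3 f4 f5 U fun a ha => ?_
        obtain ⟨-, -, -, -, -, d, g1, g2, g3, g4, g5, g6⟩ := hU a ha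
        exact ⟨(hms a ha).1, (hms a ha).2, d, g1, g2, g3, g4, g5, (hbigB _).trans g6,
          (hbigB _).trans g6⟩
      · obtain ⟨f1, f2, -, -⟩ := hU a1 ha1
        have h1 := hPLN h t f2 U (fun a ha => by
          obtain ⟨-, -, g1, g2⟩ := hU a ha
          exact ⟨(hms a ha).1, (hms a ha).2, g1, (hDAB.trans_lt g2).trans_le
            (radM_mono S hMBL hWB2' (a t))⟩)
        refine h1.trans (hQB CP _ (by linarith) (by rw [hK]; linarith) ?_)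
        rw [Finset.erase_right_comm]
        exact prodA hn Y z t h Q hQ htz f1 f2.symm htmax
      · obtain ⟨f1, f2, f3, f4, f5, f6, -⟩ := hU a1 ha1
        refine hR1 (DA * WA) LA hVA1 x.1 x.2.1 x.2.2 f1 f2 f3 f4 f5 f6 U fun a ha => ?_
        obtain ⟨-, -, -, -, -, -, d, g1, g2, g3, g4, g5, g6⟩ := hU a ha
        exact ⟨(hms a ha).1, (hms a ha).2, d, g1, g2, g3, g4, g5, (hbigA _).trans g6,
          (hbigA _).trans g6⟩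
      · obtain ⟨f1, f2, f3, -, -⟩ := hU a1 ha1
        obtain ⟨m, hm1, hm2, hm3⟩ := fourth hn z x.1 x.2
        have h1 := hr2 N Y hN hY1 LA LB (DB * WB) (DA * WA) z x.1 x.2 m f1 f2 f3 hm1 hm2 hm3 U
          (fun a ha => by
            obtain ⟨-, -, -, ⟨d, g1, g2, g3, g4, g5, g6, g7⟩, ⟨d', k1, k2, k3, k4, k5, k6⟩⟩ :=
              hU a ha
            exact ⟨(hms a ha).1, (hms a ha).2, ⟨d, g1, g2, g3, g4, g5, g6, (hbigB _).trans g7,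
              (hbigB _).trans g7⟩, ⟨d', k1, k2, k3, k4, k5, (hbigA _).trans k6⟩⟩)
        have h2 := prodTwo Y hY1 z x.1 x.2 m Q hQ f1 f2 f3 hm1 hm2 hm3
        obtain ⟨R, hR⟩ : ∃ R : ℝ, R =
          (∏ k ∈ (((Finset.univ.erase z).erase x.1).erase x.2).erase m, (Y k : ℝ)) *
            (Real.sqrt ((Y z : ℝ) * Y x.1) * Real.sqrt (Y x.2 : ℝ)) := ⟨_, rfl⟩
        have hR0 : 0 ≤ R := by rw [hR]; positivity
        rw [← hR] at h1 h2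
        have hBB : 0 ≤ (N : ℝ) ^ (κB * lam) * (N : ℝ) ^ (κWB * lam) := by positivity
        calc (U.card : ℝ) ≤ _ := h1
          _ ≤ C2 * ((4 * ((N : ℝ) ^ (κB * lam) * (N : ℝ) ^ (κWB * lam))) *
              (4 * ((N : ℝ) ^ (κA * lam) * (N : ℝ) ^ (κWA * lam)))) *
              (Q * (N : ℝ) ^ (3 / ((E : ℝ) + 1) + ε / 4 * lam)) := by gcongr
          _ = 16 * C2 * (Q * (((N : ℝ) ^ (κB * lam) * (N : ℝ) ^ (κWB * lam)) *
              ((N : ℝ) ^ (κA * lam) * (N : ℝ) ^ (κWA * lam)) *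
              (N : ℝ) ^ (3 / ((E : ℝ) + 1) + ε / 4 * lam))) := by ring
          _ ≤ 16 * C2 * (Q * (N : ℝ) ^ (ε * lam)) := by gcongr
          _ ≤ K * B := hQB (16 * C2) Q (by linarith) (by rw [hK]; linarith) le_rfl
  calc (T.card : ℝ) ≤ K * B * F := hmain
    _ = K * F * B := by ring
    _ ≤ _ := mul_le_mul_of_nonneg_right (by linarith) (by linarith)

end Pool.Agent.Helper87.TX
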